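import Pool.Agent.P.MP_6277db_ag.KEW.L1.Site

/-!
Etale neighbourhoods in a site: opens, base change, and shrinking to elementary squares.
-/

set_option backward.isDefEq.respectTransparency false

noncomputable section

open CategoryTheory Limits AlgebraicGeometry Opposite

namespace Pool.Agent.KEW

/-- A point in the closure of the image of a locally closed subset of a noetherian sober space is a
specialisation of the image of a point of the subset. -/
lemma Geom_closure {X Y : Type} [TopologicalSpace X] [TopologicalSpace Y]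
    [TopologicalSpace.NoetherianSpace X] [QuasiSober X] {g : X → Y} (hg : Continuous g)
    {F O : Set X} (hF : IsClosed F) (hO : IsOpen O) {y : Y} (hy : y ∈ closure (g '' (F ∩ O))) :
    ∃ x ∈ F ∩ O, g x ⤳ y := by
  obtain ⟨S, hS, hc, hi, rfl⟩ :=
    TopologicalSpace.NoetherianSpace.exists_finite_set_isClosed_irreducible hF
  have h1 : g '' (⋃₀ S ∩ O) = ⋃ t ∈ S, g '' (t ∩ O) := by
    ext z
    simp only [Set.mem_image, Set.mem_inter_iff, Set.mem_sUnion, Set.mem_iUnion]
    constructor
    · rintro ⟨x, ⟨⟨t, ht, hx⟩, hxO⟩, rfl⟩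
      exact ⟨t, ht, x, ⟨hx, hxO⟩, rfl⟩
    · rintro ⟨t, ht, x, ⟨hx, hxO⟩, rfl⟩
      exact ⟨x, ⟨⟨t, ht, hx⟩, hxO⟩, rfl⟩
  rw [h1, hS.closure_biUnion] at hy
  obtain ⟨t, ht, hy⟩ := Set.mem_iUnion₂.1 hy
  obtain ⟨ξ, hξ⟩ := QuasiSober.sober (hi t ht) (hc t ht)
  have hne : (t ∩ O).Nonempty := by
    by_contra h
    rw [Set.not_nonempty_iff_eq_empty] at h
    rw [h, Set.image_empty, closure_empty] at hy
    exact hy
  refine ⟨ξ, ⟨⟨t, ht, hξ.mem⟩, (hξ.mem_open_set_iff hO).2 hne⟩, ?_⟩
  rw [specializes_iff_mem_closure]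
  refine closure_minimal ?_ isClosed_closure hy
  rintro _ ⟨x, hx, rfl⟩
  exact specializes_iff_mem_closure.1 ((hξ.specializes hx.1).map hg)

lemma Geom_lqf {U V : Scheme.{0}} (f : V ⟶ U) [Etale f] : LocallyQuasiFinite f where
  quasiFinite_appLE {A} hA {B} hB e := by
    have h1 := f.formallyUnramified_appLE hA hB e
    have h2 := f.finiteType_appLE hA hB e
    algebraize [(f.appLE A B e).hom]
    exact (inferInstance : Algebra.QuasiFinite Γ(U, A) Γ(V, B))

/-- A point with values in a field factors through the residue field of its image. -/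
lemma Geom_fac {X : Scheme.{0}} {K : Type} [Field K] (a : Spec (.of K) ⟶ X) {x : X}
    (h : a (IsLocalRing.closedPoint K) = x) :
    ∃ α : X.residueField x ⟶ .of K, a = Spec.map α ≫ X.fromSpecResidueField x := by
  subst h
  exact ⟨_, (Scheme.descResidueField_stalkClosedPointTo_fromSpecResidueField K X a).symm⟩

lemma Geom_pt_eq {X : Scheme.{0}} {K : Type} [Field K] (a : Spec (.of K) ⟶ X)
    (s : Spec (.of K)) : a s = a (IsLocalRing.closedPoint K) :=
  congrArg a (Subsingleton.elim _ _)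

/-- Two field valued points through a point with trivial residue field extension agree. -/
lemma Geom_pt_ext {U V : Scheme.{0}} (f : V ⟶ U) {v : V} (hres : IsIso (f.residueFieldMap v))
    {K : Type} [Field K] {a b : Spec (.of K) ⟶ V} (ha : a (IsLocalRing.closedPoint K) = v)
    (hb : b (IsLocalRing.closedPoint K) = v) (h : a ≫ f = b ≫ f) : a = b := by
  obtain ⟨α, rfl⟩ := Geom_fac a ha
  obtain ⟨β, rfl⟩ := Geom_fac b hb
  simp only [Category.assoc, ← Scheme.Hom.SpecMap_residueFieldMap_fromSpecResidueField] at h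
  rw [← Category.assoc, ← Category.assoc, cancel_mono, ← Spec.map_comp, ← Spec.map_comp,
    Spec.map_inj, cancel_epi] at h
  rw [h]

/-- A section over the residue field gives a trivial residue field extension. -/
lemma Geom_res_of_sec {U V : Scheme.{0}} (f : V ⟶ U) (x : U) (s : Spec (U.residueField x) ⟶ V)
    (hs : s ≫ f = U.fromSpecResidueField x) (t : Spec (U.residueField x)) :
    f (s t) = x ∧ IsIso (f.residueFieldMap (s t)) := by
  have h1 : f (s t) = x := by
    rw [← Scheme.Hom.comp_apply, hs, Scheme.fromSpecResidueField_apply]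
  refine ⟨h1, ?_⟩
  obtain ⟨v, hv⟩ : ∃ v, v = s t := ⟨_, rfl⟩
  rw [← hv] at h1 ⊢
  subst h1
  obtain ⟨α, hα⟩ := Geom_fac (K := U.residueField (f v)) s
    ((Geom_pt_eq (K := U.residueField (f v)) s t).symm.trans hv.symm)
  rw [hα, Category.assoc, ← Scheme.Hom.SpecMap_residueFieldMap_fromSpecResidueField,
    ← Category.assoc, ← Spec.map_comp] at hs
  have h2 : f.residueFieldMap v ≫ α = 𝟙 _ := by
    rw [← Spec.map_inj, Spec.map_id, ← cancel_mono (U.fromSpecResidueField (f v)), hs]
    exact (Category.id_comp _).symm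
  have : Mono α := ConcreteCategory.mono_of_injective _ (RingHom.injective _)
  refine ⟨α, h2, ?_⟩
  rw [← cancel_mono α, Category.assoc, h2, Category.comp_id, Category.id_comp]

/-- A trivial residue field extension gives a section over the residue field. -/
lemma Geom_sec_of_res {U V : Scheme.{0}} (f : V ⟶ U) {v : V} {x : U} (hx : f v = x)
    (hres : IsIso (f.residueFieldMap v)) : ∃ s : Spec (U.residueField x) ⟶ V,
      s ≫ f = U.fromSpecResidueField x ∧ ∀ t, s t = v := by
  subst hx
  refine ⟨Spec.map (inv (f.residueFieldMap v)) ≫ V.fromSpecResidueField v, ?_, fun t => ?_⟩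
  · rw [Category.assoc, ← Scheme.Hom.SpecMap_residueFieldMap_fromSpecResidueField,
      ← Category.assoc, ← Spec.map_comp, IsIso.hom_inv_id, Spec.map_id, Category.id_comp]
  · rw [Scheme.Hom.comp_apply, Scheme.fromSpecResidueField_apply]

/-- A field valued point of the fibre square through the diagonal has equal components. -/
lemma Geom_of_diag {U V : Scheme.{0}} (f : V ⟶ U) [Etale f] {T : Scheme.{0}} {a b : T ⟶ V}
    (h : a ≫ f = b ≫ f)
    (hd : Set.range (pullback.lift a b h) ⊆ Set.range (pullback.diagonal f)) : a = b := by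
  have h1 := IsOpenImmersion.lift_fac (pullback.diagonal f) (pullback.lift a b h) hd
  have h2 := h1 =≫ pullback.fst f f
  have h3 := h1 =≫ pullback.snd f f
  simp only [Category.assoc, pullback.diagonal_fst, pullback.diagonal_snd, Category.comp_id,
    pullback.lift_fst, pullback.lift_snd] at h2 h3
  rw [← h2, h3]

/-- If all points of the fibre square over `(w, w)` are diagonal, the residue field extension at `w`
is trivial. -/
lemma Geom_res_of_diag {U V : Scheme.{0}} (f : V ⟶ U) [Etale f] (w : V)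
    (h : ∀ ξ : (pullback f f : Scheme), pullback.fst f f ξ = w → pullback.snd f f ξ = w →
      ξ ∈ Set.range (pullback.diagonal f)) : IsIso (f.residueFieldMap w) := by
  let _ : Algebra (U.residueField (f w)) (V.residueField w) := (f.residueFieldMap w).hom.toAlgebra
  have hsep : Algebra.IsSeparable (U.residueField (f w)) (V.residueField w) := inferInstance
  have hpi : IsPurelyInseparable (U.residueField (f w)) (V.residueField w) := by
    rw [isPurelyInseparable_iff_subsingleton_emb, subsingleton_iff]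
    intro σ₁ σ₂
    apply AlgHom.coe_ringHom_injective
    have hc : (Spec.map (CommRingCat.ofHom σ₁.toRingHom) ≫ V.fromSpecResidueField w) ≫ f =
        (Spec.map (CommRingCat.ofHom σ₂.toRingHom) ≫ V.fromSpecResidueField w) ≫ f := by
      simp only [Category.assoc, ← f.SpecMap_residueFieldMap_fromSpecResidueField w,
        ← Spec.map_comp_assoc]
      congr 2
      ext a
      exact (AlgHom.commutes σ₁ a).trans (AlgHom.commutes σ₂ a).symm
    have h1 := Geom_of_diag f hc (by
      rintro _ ⟨t, rfl⟩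
      refine h _ ?_ ?_
      · rw [← Scheme.Hom.comp_apply, pullback.lift_fst, Scheme.Hom.comp_apply]
        exact Scheme.fromSpecResidueField_apply _ _
      · rw [← Scheme.Hom.comp_apply, pullback.lift_snd, Scheme.Hom.comp_apply]
        exact Scheme.fromSpecResidueField_apply _ _)
    rw [cancel_mono, Spec.map_inj] at h1
    exact congrArg CommRingCat.Hom.hom h1
  have hs := IsPurelyInseparable.surjective_algebraMap_of_isSeparable
    (U.residueField (f w)) (V.residueField w)
  exact (ConcreteCategory.isIso_iff_bijective _).2 ⟨RingHom.injective _, hs⟩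

/-- Near a point `v` with trivial residue field extension over a generic point of a closed set
`Z`, an etale map is injective with trivial residue field extensions over `Z`. -/
theorem genSec {U V : Scheme.{0}} [IsNoetherian U] [IsNoetherian V] (f : V ⟶ U) [Etale f]
    (Z : Set U) (hZ : IsClosed Z) (v : V) (hv : f v ∈ Z) (hgen : ∀ z ∈ Z, z ⤳ f v → z = f v)
    (hres : IsIso (f.residueFieldMap v)) :
    ∃ V₁ : V.Opens, v ∈ V₁ ∧ (∀ w ∈ V₁, f w ∈ Z → IsIso (f.residueFieldMap w)) ∧
      ∀ w ∈ V₁, ∀ w' ∈ V₁, f w ∈ Z → f w = f w' → w = w' := by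
  have := Geom_lqf f
  obtain ⟨O, hO, hOv⟩ : ∃ O : Set V, IsOpen O ∧ O ∩ f ⁻¹' {f v} = {v} :=
    isDiscrete_iff_forall_mem_exists_isOpen.1 (f.isDiscrete_preimage_singleton (f v)) v rfl
  have hvO : v ∈ O := (hOv.ge rfl).1
  have hO1 : ∀ w ∈ O, f w = f v → w = v := fun w hw h => hOv.le ⟨hw, h⟩
  have hN : IsNoetherian (pullback f f) :=
    { __ := LocallyOfFiniteType.isLocallyNoetherian (pullback.fst f f)
      __ := QuasiCompact.compactSpace_of_compactSpace (pullback.fst f f) }
  obtain ⟨F, hF⟩ : ∃ F : Set (pullback f f : Scheme), F = (Set.range (pullback.diagonal f))ᶜ ∩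
      (pullback.fst f f ≫ f) ⁻¹' Z := ⟨_, rfl⟩
  obtain ⟨O₂, hO₂⟩ : ∃ O₂ : Set (pullback f f : Scheme),
      O₂ = pullback.fst f f ⁻¹' O ∩ pullback.snd f f ⁻¹' O := ⟨_, rfl⟩
  have hFc : IsClosed F := by
    rw [hF]
    exact (pullback.diagonal f).isOpenEmbedding.isOpen_range.isClosed_compl.inter
      (hZ.preimage (pullback.fst f f ≫ f).continuous)
  have hO₂o : IsOpen O₂ := by
    rw [hO₂]
    exact (hO.preimage (pullback.fst f f).continuous).inter
      (hO.preimage (pullback.snd f f).continuous)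
  have hcond : ∀ ξ : (pullback f f : Scheme), f (pullback.fst f f ξ) = f (pullback.snd f f ξ) := by
    intro ξ
    rw [← Scheme.Hom.comp_apply, ← Scheme.Hom.comp_apply, pullback.condition]
  have hvn : v ∉ closure (pullback.fst f f '' (F ∩ O₂)) := by
    intro h
    obtain ⟨ξ, ⟨hξF, hξO⟩, hsp⟩ := Geom_closure (pullback.fst f f).continuous hFc hO₂o h
    rw [hF] at hξF
    rw [hO₂] at hξO
    have h1 : f (pullback.fst f f ξ) = f v :=
      hgen _ (by simpa using hξF.2) (hsp.map f.continuous)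
    have h2 := hO1 _ hξO.1 h1
    have h3 := hO1 _ hξO.2 ((hcond ξ).symm.trans h1)
    have h4 : (pullback f f).fromSpecResidueField ξ ≫ pullback.fst f f =
        (pullback f f).fromSpecResidueField ξ ≫ pullback.snd f f := by
      refine Geom_pt_ext (K := (pullback f f).residueField ξ) f hres ?_ ?_ ?_
      · rw [Scheme.Hom.comp_apply, ← h2]
        exact congrArg _ (Scheme.fromSpecResidueField_apply _ _)
      · rw [Scheme.Hom.comp_apply, ← h3]
        exact congrArg _ (Scheme.fromSpecResidueField_apply _ _)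
      · rw [Category.assoc, Category.assoc, pullback.condition]
    have h5 : (pullback f f).fromSpecResidueField ξ =
        ((pullback f f).fromSpecResidueField ξ ≫ pullback.fst f f) ≫ pullback.diagonal f := by
      refine pullback.hom_ext ?_ ?_
      · simp
      · simp [h4]
    refine hξF.1 ⟨((pullback f f).fromSpecResidueField ξ ≫ pullback.fst f f) default, ?_⟩
    rw [← Scheme.Hom.comp_apply, ← h5, Scheme.fromSpecResidueField_apply]
  have key : ∀ ξ : (pullback f f : Scheme), pullback.fst f f ξ ∈ O → pullback.snd f f ξ ∈ O →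
      pullback.fst f f ξ ∉ closure (pullback.fst f f '' (F ∩ O₂)) → f (pullback.fst f f ξ) ∈ Z →
      ξ ∈ Set.range (pullback.diagonal f) := by
    intro ξ h1 h2 h3 h4
    by_contra h5
    refine h3 (subset_closure ⟨ξ, ⟨?_, ?_⟩, rfl⟩)
    · rw [hF]
      exact ⟨h5, by simpa using h4⟩
    · rw [hO₂]
      exact ⟨h1, h2⟩
  refine ⟨⟨O ∩ (closure (pullback.fst f f '' (F ∩ O₂)))ᶜ, hO.inter isClosed_closure.isOpen_compl⟩,
    ⟨hvO, hvn⟩, fun w hw hwZ => ?_, fun w hw w' hw' hwZ h => ?_⟩
  · refine Geom_res_of_diag f w fun ξ h1 h2 => key ξ ?_ ?_ ?_ ?_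
    · rw [h1]; exact hw.1
    · rw [h2]; exact hw.1
    · rw [h1]; exact hw.2
    · rw [h1]; exact hwZ
  · obtain ⟨ξ, h1, h2⟩ := Scheme.Pullback.exists_preimage_pullback (f := f) (g := f) w w' h
    obtain ⟨t, ht⟩ := key ξ (by rw [h1]; exact hw.1) (by rw [h2]; exact hw'.1)
      (by rw [h1]; exact hw.2) (by rw [h1]; exact hwZ)
    rw [← h1, ← h2, ← ht, ← Scheme.Hom.comp_apply, ← Scheme.Hom.comp_apply,
      pullback.diagonal_fst, pullback.diagonal_snd]

/-- Etale maps do not increase the codimension of points. -/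
theorem coheight_le_of_etale {U V : Scheme.{0}} (f : V ⟶ U) [Etale f] (v : V) :
    Order.coheight v ≤ Order.coheight (f v) := by
  have := Geom_lqf f
  refine Order.coheight_le_coheight_apply_of_strictMono f (fun a b hab => ?_) v
  have h1 : b ⤳ a := hab.le
  have h2 : f b ⤳ f a := h1.map f.continuous
  refine ⟨h2, fun h3 => ?_⟩
  have h4 : f b = f a := (h2.antisymm h3).eq
  obtain ⟨O, hO, hOv⟩ : ∃ O : Set V, IsOpen O ∧ O ∩ f ⁻¹' {f a} = {a} :=
    isDiscrete_iff_forall_mem_exists_isOpen.1 (f.isDiscrete_preimage_singleton (f a)) a rfl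
  have h5 : b = a := hOv.le ⟨h1.mem_open hO (hOv.ge rfl).1, h4⟩
  exact hab.ne' h5

variable {C : Type 1} [Category.{0} C] {L : Type 1} [CommRing L] {u : C ⥤ Scheme.{0}}

lemma IsSite.exists_open (hu : IsSite u) (U : C) (O : (u.obj U).Opens) :
    ∃ (V : C) (f : V ⟶ U), IsOpenImmersion (u.map f) ∧ Set.range (u.map f) = O := by
  have := hu.noeth U
  obtain ⟨V, f, e, h⟩ := hu.etale U O O.ι inferInstance inferInstance inferInstance
  refine ⟨V, f, by rw [h]; infer_instance, ?_⟩
  rw [h, Scheme.Hom.comp_base, TopCat.coe_comp, e.hom.surjective.range_comp, Scheme.Opens.range_ι]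

lemma IsSite.exists_lift (hu : IsSite u) {V A X : C} (φ : V ⟶ X) (ψ : A ⟶ X)
    (h : u.obj V ⟶ u.obj A) (w : h ≫ u.map ψ = u.map φ) :
    ∃ h' : V ⟶ A, u.map h' = h ∧ h' ≫ ψ = φ := by
  have := hu.faithful
  obtain ⟨h', rfl⟩ := hu.lift φ ψ h w
  exact ⟨h', rfl, u.map_injective (by rw [u.map_comp, w])⟩

/-- Maps whose image lies in an open subscheme factor through it. -/
lemma IsSite.lift_open (hu : IsSite u) {U V W : C} (f : V ⟶ U) [IsOpenImmersion (u.map f)]
    (φ : W ⟶ U) (h : Set.range (u.map φ) ⊆ Set.range (u.map f)) : ∃ ψ : W ⟶ V, ψ ≫ f = φ := by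
  obtain ⟨ψ, -, hψ⟩ := hu.exists_lift φ f _ (IsOpenImmersion.lift_fac (u.map f) (u.map φ) h)
  exact ⟨ψ, hψ⟩

lemma IsSite.mono_of_open (hu : IsSite u) {U V : C} (f : V ⟶ U) [IsOpenImmersion (u.map f)] :
    Mono f := by
  have := hu.faithful
  exact u.mono_of_mono_map inferInstance

lemma Geom_map_comp_apply {U V W : C} (f : W ⟶ V) (g : V ⟶ U) (x : u.obj W) :
    u.map (f ≫ g) x = u.map g (u.map f x) := by
  rw [u.map_comp, Scheme.Hom.comp_apply]

/-- An etale scheme over an object of a site is covered by objects of the site. -/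
lemma IsSite.exists_etale (hu : IsSite u) (U : C) {P : Scheme.{0}} (p : P ⟶ u.obj U) [Etale p]
    (z : P) : ∃ (V : C) (f : V ⟶ U) (ι : u.obj V ⟶ P) (y : u.obj V), IsOpenImmersion ι ∧
      u.map f = ι ≫ p ∧ ι y = z := by
  have := hu.noeth U
  obtain ⟨W, hW, hzW⟩ : ∃ W : P.Opens, IsAffineOpen W ∧ z ∈ W := by
    obtain ⟨_, ⟨W, hW, rfl⟩, hzW, -⟩ :=
      P.isBasis_affineOpens.exists_subset_of_mem_open (Set.mem_univ z) isOpen_univ
    exact ⟨W, hW, hzW⟩
  have : IsAffine W := hW
  have hsep : IsSeparated (W.ι ≫ p) := by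
    have : IsSeparated ((W.ι ≫ p) ≫ terminal.from _) := by
      rw [terminal.comp_from]
      infer_instance
    exact IsSeparated.of_comp _ (terminal.from _)
  have : IsNoetherian W := { __ := LocallyOfFiniteType.isLocallyNoetherian (W.ι ≫ p) }
  obtain ⟨V, f, e, h⟩ := hu.etale U W (W.ι ≫ p) inferInstance hsep inferInstance
  refine ⟨V, f, e.hom ≫ W.ι, e.inv ⟨z, hzW⟩, inferInstance, by rw [h, Category.assoc], ?_⟩
  rw [← Scheme.Hom.comp_apply, Iso.inv_hom_id_assoc]
  rfl

/-- Base change of an etale neighbourhood. -/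
lemma IsSite.pullback_nbhd (hu : IsSite u) {U U' V : C} (φ : U' ⟶ U) (x' : u.obj U') {f : V ⟶ U}
    {y : u.obj V} (hf : IsNbhd u f y (u.map φ x')) :
    ∃ (V' : C) (f' : V' ⟶ U') (ψ : V' ⟶ V) (y' : u.obj V'),
      IsNbhd u f' y' x' ∧ f' ≫ φ = ψ ≫ f ∧ u.map ψ y' = y := by
  obtain ⟨het, hy, hres⟩ := hf
  obtain ⟨s, hs, hsy⟩ := Geom_sec_of_res (u.map f) hy hres
  have hc : (u.obj U').fromSpecResidueField x' ≫ u.map φ =
      (Spec.map ((u.map φ).residueFieldMap x') ≫ s) ≫ u.map f := by
    rw [Category.assoc, hs, Scheme.Hom.SpecMap_residueFieldMap_fromSpecResidueField]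
  obtain ⟨h1, h2⟩ := Geom_res_of_sec (pullback.fst (u.map φ) (u.map f)) x'
    (pullback.lift _ _ hc) (pullback.lift_fst _ _ _) default
  obtain ⟨V', f', ι, y', hι, hf', hy'⟩ := hu.exists_etale U' (pullback.fst (u.map φ) (u.map f))
    (pullback.lift _ _ hc default)
  obtain ⟨ψ, hψ, hψ'⟩ := hu.exists_lift (f' ≫ φ) f (ι ≫ pullback.snd (u.map φ) (u.map f))
    (by rw [u.map_comp, hf', Category.assoc, Category.assoc, pullback.condition])
  refine ⟨V', f', ψ, y', ⟨?_, ?_, ?_⟩, hψ'.symm, ?_⟩
  · rw [hf']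
    infer_instance
  · rw [hf', Scheme.Hom.comp_apply, hy', h1]
  · rw [← hy'] at h2
    rw [hf', Scheme.residueFieldMap_comp]
    infer_instance
  · rw [hψ, Scheme.Hom.comp_apply, hy', ← Scheme.Hom.comp_apply, pullback.lift_snd,
      Scheme.Hom.comp_apply, hsy]

/-- Two local properties which are stable under restriction hold on a common neighbourhood. -/
lemma IsSite.locally_and (hu : IsSite u) {U : C} {x : u.obj U} {p p' : ∀ V : C, (V ⟶ U) → Prop}
    (hp : ∀ V f W (g : W ⟶ V), p V f → p W (g ≫ f))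
    (hp' : ∀ V f W (g : W ⟶ V), p' V f → p' W (g ≫ f)) (h : Locally u U x p)
    (h' : Locally u U x p') : Locally u U x fun V f => p V f ∧ p' V f := by
  obtain ⟨V, f, y, hf, hV⟩ := h
  obtain ⟨V', f', y', hf', hV'⟩ := h'
  rw [← hf.2.1] at hf'
  obtain ⟨W, g, ψ, z, hg, hw, -⟩ := hu.pullback_nbhd f y hf'
  exact ⟨W, g ≫ f, z, hg.comp hf, hp _ _ _ _ hV, hw ▸ hp' _ _ _ _ hV'⟩

lemma Geom_map_map {F : PSh C L} {U V W : C} (f : V ⟶ U) (g : W ⟶ V) (a : F.obj (op U)) :
    F.map g.op (F.map f.op a) = F.map (g ≫ f).op a := by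
  rw [op_comp, F.map_comp]
  rfl

lemma IsSite.locZeroEl_map (hu : IsSite u) {F : PSh C L} {U V : C} (φ : V ⟶ U) {a : F.obj (op U)}
    (h : LocZeroEl u a) : LocZeroEl u (F.map φ.op a) := by
  intro x
  obtain ⟨W, f, y, hf, hW⟩ := h (u.map φ x)
  obtain ⟨W', f', ψ, y', hf', hw, -⟩ := hu.pullback_nbhd φ x hf
  refine ⟨W', f', y', hf', ?_⟩
  change F.map f'.op (F.map φ.op a) = 0
  rw [Geom_map_map, hw, ← Geom_map_map, hW, map_zero]

/-- The elementary square attached to an open `U₀` of `U`, an etale map `f : V ⟶ U` and an open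
`V₁` of `V` on which `f` is injective with trivial residue field extensions outside `U₀`. -/
lemma IsSite.exists_square (hu : IsSite u) {U V : C} (f : V ⟶ U) [Etale (u.map f)]
    (U₀ : (u.obj U).Opens) (V₁ : (u.obj V).Opens)
    (hres : ∀ w ∈ V₁, u.map f w ∉ U₀ → IsIso ((u.map f).residueFieldMap w))
    (hinj : ∀ w ∈ V₁, ∀ w' ∈ V₁, u.map f w ∉ U₀ → u.map f w = u.map f w' → w = w') :
    ∃ (S : NisSq u) (ιX : S.X ⟶ U) (ιY : S.Y ⟶ V), IsOpenImmersion (u.map ιX) ∧
      IsOpenImmersion (u.map ιY) ∧ S.f ≫ ιX = ιY ≫ f ∧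
      Set.range (u.map ιX) = (U₀ : Set (u.obj U)) ∪ u.map f '' V₁ ∧ Set.range (u.map (S.i ≫ ιX)) = U₀ ∧
      Set.range (u.map ιY) = V₁ := by
  obtain ⟨X, ιX, hX, hXr⟩ := hu.exists_open U
    ⟨(U₀ : Set (u.obj U)) ∪ u.map f '' V₁, U₀.2.union ((u.map f).isOpenMap _ V₁.2)⟩
  obtain ⟨A, ιA, hA, hAr⟩ := hu.exists_open U U₀
  obtain ⟨Y, ιY, hY, hYr⟩ := hu.exists_open V V₁
  obtain ⟨B, j, hj, hjr⟩ := hu.exists_open Y (u.map (ιY ≫ f) ⁻¹ᵁ U₀)
  replace hXr : Set.range (u.map ιX) = (U₀ : Set (u.obj U)) ∪ u.map f '' V₁ := hXr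
  have hYm : ∀ y, u.map ιY y ∈ V₁ := fun y => hYr.le ⟨y, rfl⟩
  obtain ⟨i, hi⟩ := hu.lift_open ιX ιA (by rw [hXr, hAr]; exact Set.subset_union_left)
  obtain ⟨f', hf'⟩ := hu.lift_open ιX (ιY ≫ f) (by
    rw [hXr]
    rintro _ ⟨y, rfl⟩
    exact Or.inr ⟨_, hYm y, (Geom_map_comp_apply _ _ _).symm⟩)
  obtain ⟨g, hg⟩ := hu.lift_open ιA (j ≫ ιY ≫ f) (by
    rw [hAr]
    rintro _ ⟨b, rfl⟩
    rw [Geom_map_comp_apply]
    exact hjr.le ⟨b, rfl⟩)
  have := hu.mono_of_open ιX
  have hw : j ≫ f' = g ≫ i := by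
    rw [← cancel_mono ιX, Category.assoc, Category.assoc, hf', hi, hg]
  have hio : IsOpenImmersion (u.map i) := by
    have : IsOpenImmersion (u.map i ≫ u.map ιX) := by rwa [← u.map_comp, hi]
    exact IsOpenImmersion.of_comp _ (u.map ιX)
  have hfe : Etale (u.map f') := by
    have : Etale (u.map f' ≫ u.map ιX) := by
      rw [← u.map_comp, hf', u.map_comp]
      infer_instance
    exact Etale.of_comp _ (u.map ιX)
  have hinjX := (u.map ιX).isOpenEmbedding.injective
  have hmem : ∀ x, x ∈ Set.range (u.map i) ↔ u.map ιX x ∈ U₀ := by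
    intro x
    constructor
    · rintro ⟨a, rfl⟩
      rw [← Geom_map_comp_apply, hi]
      exact hAr.le ⟨a, rfl⟩
    · intro hx
      obtain ⟨a, ha⟩ := hAr.ge hx
      exact ⟨a, hinjX (by rw [← Geom_map_comp_apply, hi, ha])⟩
  have hfy : ∀ y, u.map ιX (u.map f' y) = u.map f (u.map ιY y) := fun y => by
    rw [← Geom_map_comp_apply, hf', Geom_map_comp_apply]
  refine ⟨⟨X, A, Y, B, i, f', j, g, hw, hio, hfe, ?_, fun x hx => ?_, fun y hy => ?_⟩, ιX, ιY,
    hX, hY, hf', hXr, by rw [hi, hAr], hYr⟩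
  · refine (IsOpenImmersion.isPullback (u.map g) (u.map j) (u.map i) (u.map f')
      (by rw [← u.map_comp, ← u.map_comp, hw]) ?_).flip
    ext y
    change u.map f' y ∈ Set.range (u.map i) ↔ y ∈ Set.range (u.map j)
    rw [hmem, hjr, hfy, ← Geom_map_comp_apply]
    rfl
  · rw [hmem] at hx
    obtain ⟨w, hw, hwx⟩ := (hXr.le ⟨x, rfl⟩).resolve_left hx
    obtain ⟨y, rfl⟩ := hYr.ge hw
    refine ⟨y, hinjX (by rw [hfy, hwx]), fun y' hy' => ?_⟩
    refine (u.map ιY).isOpenEmbedding.injective (hinj _ (hYm y') _ hw ?_ ?_)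
    · rw [← hfy, hy']
      exact hx
    · rw [← hfy, hy', hwx]
  · rw [hmem, hfy] at hy
    have h1 := hres _ (hYm y) hy
    have h2 : IsIso ((u.map ιY ≫ u.map f).residueFieldMap y) := by
      rw [Scheme.residueFieldMap_comp]
      infer_instance
    rw [← u.map_comp, ← hf', u.map_comp, Scheme.residueFieldMap_comp] at h2
    exact IsIso.of_isIso_comp_left ((u.map ιX).residueFieldMap _) _

/-- Maps into the corner of an elementary square. -/
lemma IsSite.sq_lift (hu : IsSite u) (S : NisSq u) {W : C} (y : W ⟶ S.Y) (a : W ⟶ S.A)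
    (w : y ≫ S.f = a ≫ S.i) : ∃ b : W ⟶ S.B, b ≫ S.j = y ∧ b ≫ S.g = a := by
  have := hu.faithful
  have hw : u.map y ≫ u.map S.f = u.map a ≫ u.map S.i := by rw [← u.map_comp, w, u.map_comp]
  obtain ⟨b, hb, hb'⟩ := hu.exists_lift y S.j (S.pb.lift _ _ hw) (S.pb.lift_fst _ _ _)
  exact ⟨b, hb', u.map_injective (by rw [u.map_comp, hb, S.pb.lift_snd])⟩

lemma NisSq.open_j (S : NisSq u) : IsOpenImmersion (u.map S.j) :=
  MorphismProperty.of_isPullback S.pb.flip S.open_i

lemma NisSq.etale_g (S : NisSq u) : Etale (u.map S.g) :=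
  MorphismProperty.of_isPullback S.pb S.etale_f

/-- A map which sends a point into an open subscheme factors through it near the point. -/
lemma IsSite.locally_lift (hu : IsSite u) {U A V : C} (i : A ⟶ U) [IsOpenImmersion (u.map i)]
    (χ : V ⟶ U) (x : u.obj V) (hx : u.map χ x ∈ Set.range (u.map i)) :
    Locally u V x fun W φ => ∃ a : W ⟶ A, a ≫ i = φ ≫ χ := by
  obtain ⟨a, ha⟩ := hx
  obtain ⟨W, φ, ψ, y, h, hw, -⟩ := hu.pullback_nbhd χ x (f := i) (y := a)
    (by rw [← ha]; exact IsNbhd.of_isOpenImmersion i _)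
  exact ⟨W, φ, y, h, ψ, hw.symm⟩

/-- Two lifts along an etale map through the same point with trivial residue field extension agree
near the point. -/
lemma IsSite.locally_eq (hu : IsSite u) {U Y V : C} (f : Y ⟶ U) [Etale (u.map f)] (a b : V ⟶ Y)
    (w : a ≫ f = b ≫ f) (x : u.obj V) (hx : u.map a x = u.map b x)
    (hres : IsIso ((u.map f).residueFieldMap (u.map a x))) :
    Locally u V x fun _ φ => φ ≫ a = φ ≫ b := by
  have := hu.faithful
  have hw : u.map a ≫ u.map f = u.map b ≫ u.map f := by rw [← u.map_comp, w, u.map_comp]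
  have h1 : (u.obj V).fromSpecResidueField x ≫ u.map a =
      (u.obj V).fromSpecResidueField x ≫ u.map b := by
    refine Geom_pt_ext (K := (u.obj V).residueField x) (u.map f) hres ?_ ?_ ?_
    · rw [Scheme.Hom.comp_apply]
      exact congrArg _ (Scheme.fromSpecResidueField_apply _ _)
    · rw [Scheme.Hom.comp_apply, hx]
      exact congrArg _ (Scheme.fromSpecResidueField_apply _ _)
    · rw [Category.assoc, Category.assoc, hw]
  have h2 : pullback.lift _ _ hw x ∈ Set.range (pullback.diagonal (u.map f)) := by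
    have h3 : (u.obj V).fromSpecResidueField x ≫ pullback.lift _ _ hw =
        ((u.obj V).fromSpecResidueField x ≫ u.map a) ≫ pullback.diagonal (u.map f) := by
      refine pullback.hom_ext ?_ ?_
      · simp
      · simp [h1]
    refine ⟨((u.obj V).fromSpecResidueField x ≫ u.map a) default, ?_⟩
    rw [← Scheme.Hom.comp_apply, ← h3, Scheme.Hom.comp_apply, Scheme.fromSpecResidueField_apply]
  obtain ⟨W, φ, hφ, hr⟩ := hu.exists_open V
    (pullback.lift _ _ hw ⁻¹ᵁ (pullback.diagonal (u.map f)).opensRange)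
  obtain ⟨y, rfl⟩ := hr.ge h2
  refine ⟨W, φ, y, IsNbhd.of_isOpenImmersion φ y, u.map_injective ?_⟩
  rw [u.map_comp, u.map_comp]
  refine Geom_of_diag (u.map f) (by rw [Category.assoc, Category.assoc, hw]) ?_
  have h4 : pullback.lift (u.map φ ≫ u.map a) (u.map φ ≫ u.map b)
      (by rw [Category.assoc, Category.assoc, hw]) = u.map φ ≫ pullback.lift _ _ hw := by
    refine pullback.hom_ext ?_ ?_ <;> simp
  rw [h4]
  rintro _ ⟨t, rfl⟩
  rw [Scheme.Hom.comp_apply]
  exact hr.le ⟨t, rfl⟩

/-- A criterion for a finitely supported function to lie in a submodule. -/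
lemma Geom_mem_of_fibres {α β γ : Type 1} (M : Submodule L (α →₀ L)) (π : α → β) (ι : γ → β)
    (h₁ : ∀ k c, π k = ι c → Finsupp.single k 1 ∈ M)
    (h₂ : ∀ k k', π k = π k' → Finsupp.single k 1 - Finsupp.single k' 1 ∈ M) (y : α →₀ L)
    (a : γ →₀ L) (h : Finsupp.mapDomain ι a = Finsupp.mapDomain π y) : y ∈ M := by
  classical
  obtain ⟨σ, hσ⟩ : ∃ σ : (β →₀ L) →ₗ[L] (α →₀ L), ∀ b, σ (Finsupp.single b 1) =
      if hb : ∃ k, π k = b then Finsupp.single hb.choose 1 else 0 :=
    ⟨Finsupp.linearCombination L fun b =>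
      if hb : ∃ k, π k = b then Finsupp.single hb.choose 1 else 0, fun b => by simp⟩
  have e₁ : ∀ y : α →₀ L, y - σ (Finsupp.mapDomain π y) ∈ M := by
    intro y
    induction y using Finsupp.induction_linear with
    | zero => simp
    | add y y' hy hy' =>
      rw [Finsupp.mapDomain_add, map_add, add_sub_add_comm]
      exact M.add_mem hy hy'
    | single k c =>
      have hb : ∃ k', π k' = π k := ⟨k, rfl⟩
      rw [Finsupp.mapDomain_single, ← Finsupp.smul_single_one, ← Finsupp.smul_single_one (π k),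
        map_smul, hσ, dif_pos hb, ← smul_sub]
      exact M.smul_mem _ (h₂ _ _ hb.choose_spec.symm)
  have e₂ : ∀ a : γ →₀ L, σ (Finsupp.mapDomain ι a) ∈ M := by
    intro a
    induction a using Finsupp.induction_linear with
    | zero => simp
    | add a a' ha ha' =>
      rw [Finsupp.mapDomain_add, map_add]
      exact M.add_mem ha ha'
    | single k c =>
      rw [Finsupp.mapDomain_single, ← Finsupp.smul_single_one, map_smul, hσ]
      refine M.smul_mem _ ?_
      split_ifs with hb
      · exact h₁ _ _ hb.choose_spec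
      · exact M.zero_mem
  have e₃ := M.add_mem (e₁ y) (e₂ a)
  rwa [h, sub_add_cancel] at e₃

lemma Geom_rep_app {U U' V : C} (ψ : U ⟶ U') (a : ULift.{1} (V ⟶ U) →₀ L) :
    ((rep C L).map ψ).app (op V) a =
      Finsupp.mapDomain (fun φ : ULift.{1} (V ⟶ U) => ULift.up.{1} (φ.down ≫ ψ)) a := rfl

lemma Geom_rep_map {U V V' : C} (ψ : V' ⟶ V) (a : ULift.{1} (V ⟶ U) →₀ L) :
    ((rep C L).obj U).map ψ.op a =
      Finsupp.mapDomain (fun φ : ULift.{1} (V ⟶ U) => ULift.up.{1} (ψ ≫ φ.down)) a := rfl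

lemma Geom_nat {F F' : PSh C L} (φ : F ⟶ F') {U V : C} (f : V ⟶ U) (a : F.obj (op U)) :
    φ.app (op V) (F.map f.op a) = F'.map f.op (φ.app (op U) a) :=
  congrArg (fun g => ModuleCat.Hom.hom g a) (φ.naturality f.op)

lemma Geom_locInj_rep {U U' : C} (ψ : U ⟶ U') [Mono ψ] : LocInj u ((rep C L).map ψ) := by
  intro V a ha x
  have h1 : a = 0 := by
    refine Finsupp.mapDomain_injective
      (f := fun φ : ULift.{1} (V ⟶ U) => ULift.up.{1} (φ.down ≫ ψ)) (fun φ φ' h => ?_) ?_
    · exact ULift.ext _ _ ((cancel_mono ψ).1 (congrArg ULift.down h))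
    · rw [Finsupp.mapDomain_zero]
      exact ha
  refine Locally.of_forall x ?_
  rw [h1, map_zero]

/-- The sections which locally lie in the image of a map of presheaves. -/
def IsSite.locIm (hu : IsSite u) {F F' : PSh C L} (φ : F ⟶ F') (V : C) (x : u.obj V) :
    Submodule L (F'.obj (op V)) where
  carrier := {z | Locally u V x fun W g => ∃ b : F.obj (op W), φ.app (op W) b = F'.map g.op z}
  zero_mem' := Locally.of_forall x ⟨0, by rw [map_zero, map_zero]⟩
  add_mem' := by
    intro z z' hz hz'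
    have st : ∀ (z : F'.obj (op V)) (W : C) (g : W ⟶ V) (W' : C) (g' : W' ⟶ W),
        (∃ b : F.obj (op W), φ.app (op W) b = F'.map g.op z) →
          ∃ b : F.obj (op W'), φ.app (op W') b = F'.map (g' ≫ g).op z := by
      rintro z W g W' g' ⟨b, hb⟩
      exact ⟨F.map g'.op b, by rw [Geom_nat, hb, Geom_map_map]⟩
    refine (hu.locally_and (st z) (st z') hz hz').mono ?_
    rintro W g ⟨⟨b, hb⟩, b', hb'⟩
    exact ⟨b + b', by rw [map_add, map_add, hb, hb']⟩
  smul_mem' := by
    intro c z hz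
    refine Locally.mono hz ?_
    rintro W g ⟨b, hb⟩
    exact ⟨c • b, by rw [map_smul, map_smul, hb]⟩

/-- Representable presheaves satisfy local exactness for elementary squares. -/
theorem IsSite.locExact_rep (hu : IsSite u) : LocExact u (rep C L) where
  empty U hU := by
    rw [locZero_iff]
    intro V a x
    have : IsEmpty (ULift.{1} (V ⟶ U)) := ⟨fun φ => hU.false (u.map φ.down x)⟩
    have h1 : a = 0 := Subsingleton.elim (α := ULift.{1} (V ⟶ U) →₀ L) _ _
    refine Locally.of_forall x ?_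
    rw [h1, map_zero]
  inj S := by
    have := S.open_j
    have := hu.mono_of_open S.j
    exact Geom_locInj_rep _
  inj' S := by
    have := S.open_i
    have := hu.mono_of_open S.i
    exact Geom_locInj_rep _
  mid S V a y h x := by
    have := S.open_i
    have := S.etale_f
    have h₁ : ∀ k : V ⟶ S.Y, u.map (k ≫ S.f) x ∈ Set.range (u.map S.i) →
        Finsupp.single (ULift.up.{1} k) (1 : L) ∈ hu.locIm ((rep C L).map S.j) V x := by
      intro k hk
      refine (hu.locally_lift S.i (k ≫ S.f) x hk).mono ?_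
      rintro W g ⟨a, ha⟩
      obtain ⟨b, hb, -⟩ := hu.sq_lift S (g ≫ k) a (by rw [ha, Category.assoc])
      refine ⟨Finsupp.single (ULift.up.{1} b) (1 : L), ?_⟩
      rw [Geom_rep_app, Geom_rep_map, Finsupp.mapDomain_single, Finsupp.mapDomain_single, hb]
    refine Geom_mem_of_fibres (hu.locIm ((rep C L).map S.j) V x)
      (fun φ : ULift.{1} (V ⟶ S.Y) => ULift.up.{1} (φ.down ≫ S.f))
      (fun φ : ULift.{1} (V ⟶ S.A) => ULift.up.{1} (φ.down ≫ S.i)) (fun k c hk => ?_)
      (fun k k' hk => ?_) y a h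
    · refine h₁ k.down ?_
      rw [show k.down ≫ S.f = c.down ≫ S.i from congrArg ULift.down hk, Geom_map_comp_apply]
      exact ⟨_, rfl⟩
    · have hk' : k.down ≫ S.f = k'.down ≫ S.f := congrArg ULift.down hk
      by_cases hx : u.map (k.down ≫ S.f) x ∈ Set.range (u.map S.i)
      · exact Submodule.sub_mem _ (h₁ k.down hx) (h₁ k'.down (hk' ▸ hx))
      · have h2 : u.map k.down x = u.map k'.down x :=
          (S.uniq _ hx).unique (Geom_map_comp_apply _ _ _).symm
            (by rw [← Geom_map_comp_apply, hk'])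
        refine (hu.locally_eq S.f k.down k'.down hk' x h2
          (S.res _ (by rwa [← Geom_map_comp_apply]))).mono fun W g hg => ⟨0, ?_⟩
        rw [map_zero, map_sub, Geom_rep_map, Geom_rep_map, Finsupp.mapDomain_single,
          Finsupp.mapDomain_single, hg, sub_self]
  surj S V z x := by
    have := S.open_i
    have h₁ : z ∈ hu.locIm (biprod.desc ((rep C L).map S.i) ((rep C L).map S.f)) V x := by
      have hl : ∀ (W : C) (a : ((rep C L).obj S.A).obj (op W)),
          (biprod.desc ((rep C L).map S.i) ((rep C L).map S.f)).app (op W)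
            ((biprod.inl : _ ⟶ (rep C L).obj S.A ⊞ (rep C L).obj S.Y).app (op W) a) =
            ((rep C L).map S.i).app (op W) a := fun W a =>
        congrArg (fun g : (rep C L).obj S.A ⟶ (rep C L).obj S.X => g.app (op W) a)
          (biprod.inl_desc ((rep C L).map S.i) ((rep C L).map S.f))
      have hr : ∀ (W : C) (a : ((rep C L).obj S.Y).obj (op W)),
          (biprod.desc ((rep C L).map S.i) ((rep C L).map S.f)).app (op W)
            ((biprod.inr : _ ⟶ (rep C L).obj S.A ⊞ (rep C L).obj S.Y).app (op W) a) =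
            ((rep C L).map S.f).app (op W) a := fun W a =>
        congrArg (fun g : (rep C L).obj S.Y ⟶ (rep C L).obj S.X => g.app (op W) a)
          (biprod.inr_desc ((rep C L).map S.i) ((rep C L).map S.f))
      induction z using Finsupp.induction_linear with
      | zero => exact Submodule.zero_mem _
      | add z z' hz hz' => exact Submodule.add_mem _ hz hz'
      | single k c =>
        rw [← Finsupp.smul_single_one]
        refine Submodule.smul_mem _ _ ?_
        by_cases hx : u.map k.down x ∈ Set.range (u.map S.i)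
        · refine (hu.locally_lift S.i k.down x hx).mono ?_
          rintro W g ⟨a, ha⟩
          refine ⟨_, (hl W (Finsupp.single (ULift.up.{1} a) (1 : L))).trans ?_⟩
          rw [Geom_rep_app, Geom_rep_map, Finsupp.mapDomain_single, Finsupp.mapDomain_single, ha]
        · obtain ⟨y, hy, -⟩ := S.uniq _ hx
          obtain ⟨W, g, ψ, y', hg, hw, -⟩ := hu.pullback_nbhd k.down x (f := S.f) (y := y)
            ⟨S.etale_f, hy, S.res y (by rwa [hy])⟩
          refine ⟨W, g, y', hg, _, (hr W (Finsupp.single (ULift.up.{1} ψ) (1 : L))).trans ?_⟩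
          rw [Geom_rep_app, Geom_rep_map, Finsupp.mapDomain_single, Finsupp.mapDomain_single, hw]
    refine Locally.mono h₁ ?_
    rintro W g ⟨b, hb⟩
    refine ⟨(biprod.fst : (rep C L).obj S.A ⊞ (rep C L).obj S.Y ⟶ _).app (op W) b,
      (biprod.snd : (rep C L).obj S.A ⊞ (rep C L).obj S.Y ⟶ _).app (op W) b, ?_⟩
    rw [← hb, biprod.desc_eq]
    rfl

end Pool.Agent.KEW
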