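import Pool.Agent.P.MP_6277db_ag.KEW.L2a.Geom

/-!
The Brown-Gersten vanishing theorem for the Nisnevich topology.
-/

set_option backward.isDefEq.respectTransparency false

noncomputable section

open CategoryTheory Limits AlgebraicGeometry Opposite

namespace Pool.Agent.KEW

variable {C : Type 1} [Category.{0} C] {L : Type 1} [CommRing L] {u : C ⥤ Scheme.{0}}
  {H : ℤ → PSh C L}

variable (u) in
/-- All sections of `F` over schemes etale over `U` are locally zero. -/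
def LocZeroOver (F : PSh C L) (U : C) : Prop :=
  ∀ (V : C) (f : V ⟶ U), Etale (u.map f) → ∀ a : F.obj (op V), LocZeroEl u a

lemma LocZero.over {F : PSh C L} (h : LocZero u F) (U : C) : LocZeroOver u F U :=
  fun V _ _ a => (locZero_iff F).1 h V a

lemma LocZeroOver.of_etale {F : PSh C L} {U V : C} (h : LocZeroOver u F U) (f : V ⟶ U)
    [Etale (u.map f)] : LocZeroOver u F V := fun W g hg a =>
  h W (g ≫ f) (by rw [u.map_comp]; infer_instance) a

lemma BG_lt {X : Scheme.{0}} {x z : X} (h : z ⤳ x) (hne : z ≠ x) (hx : Order.coheight x < ⊤) :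
    Order.coheight z < Order.coheight x := by
  have h1 : x < z := ⟨h, fun h' => hne (h.antisymm h').eq⟩
  exact Order.coheight_strictAnti h1 ((Order.coheight_anti h1.le).trans_lt hx)

/-- The inductive step: a class vanishing on `U₀` and near a generic point `x` of the complement
vanishes on an open containing `U₀` and `x`. -/
lemma BG_step (hu : IsSite u) (hH : MVSys u H) (d : ℕ) {U V₀ V : C} (p q : ℤ) (hpq : p + 1 = q)
    (a : (H q).obj (op U)) (f₀ : V₀ ⟶ U) [IsOpenImmersion (u.map f₀)]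
    (h₀ : (H q).map f₀.op a = 0) (f : V ⟶ U) [Etale (u.map f)] (hf : (H q).map f.op a = 0)
    (v : u.obj V) (hv : u.map f v ∉ Set.range (u.map f₀))
    (hgen : ∀ z, z ∉ Set.range (u.map f₀) → z ⤳ u.map f v → z = u.map f v)
    (hres : IsIso ((u.map f).residueFieldMap v)) (hd : Order.coheight (u.map f v) ≤ d)
    (IH : ∀ (B : C) (φ : B ⟶ U), Etale (u.map φ) → ∀ b : (H p).obj (op B),
      ∃ (W : C) (g : W ⟶ B), IsOpenImmersion (u.map g) ∧ (H p).map g.op b = 0 ∧
        ∀ y : u.obj B, Order.coheight y < d → y ∈ Set.range (u.map g)) :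
    ∃ (X : C) (ι : X ⟶ U), IsOpenImmersion (u.map ι) ∧ (H q).map ι.op a = 0 ∧
      Set.range (u.map f₀) ⊆ Set.range (u.map ι) ∧ u.map f v ∈ Set.range (u.map ι) := by
  have := hu.noeth U
  have := hu.noeth V
  let U₀ : (u.obj U).Opens := (u.map f₀).opensRange
  obtain ⟨V₁, hv₁, hres₁, hinj₁⟩ := genSec (u.map f) (Set.range (u.map f₀))ᶜ
    U₀.2.isClosed_compl v hv hgen hres
  obtain ⟨S, ιX, ιY, hX, hY, hw, hXr, hAr, hYr⟩ := hu.exists_square f U₀ V₁ hres₁ hinj₁
  have hi := S.open_i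
  have hj := S.open_j
  have hfe := S.etale_f
  have hA : IsOpenImmersion (u.map (S.i ≫ ιX)) := by rw [u.map_comp]; infer_instance
  have hB : IsOpenImmersion (u.map (S.j ≫ ιY)) := by rw [u.map_comp]; infer_instance
  obtain ⟨ψ, hψ⟩ := hu.lift_open f₀ (S.i ≫ ιX) hAr.le
  obtain ⟨b, hb⟩ := hH.mv S p q hpq ((H q).map ιX.op a)
    (by rw [Geom_map_map, ← hψ, ← Geom_map_map, h₀, map_zero])
    (by rw [Geom_map_map, hw, ← Geom_map_map, hf, map_zero])
  obtain ⟨W, g, hg, hgb, hgd⟩ := IH S.B ((S.j ≫ ιY) ≫ f) (by rw [u.map_comp]; infer_instance) b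
  have hk : IsOpenImmersion (u.map (g ≫ S.j ≫ ιY)) := by rw [u.map_comp]; infer_instance
  let Bad : Set (u.obj V) := (Set.range (u.map (g ≫ S.j ≫ ιY)))ᶜ ∩ Set.range (u.map (S.j ≫ ιY))
  have hvB : v ∉ closure Bad := by
    intro hc
    obtain ⟨w, ⟨hw1, y, rfl⟩, hw2⟩ := Geom_closure (g := id) continuous_id
      (u.map (g ≫ S.j ≫ ιY)).opensRange.2.isClosed_compl (u.map (S.j ≫ ιY)).opensRange.2
      (by rwa [Set.image_id])
    have hne : u.map (S.j ≫ ιY) y ≠ v := by
      rintro rfl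
      refine hv (hAr.le ⟨u.map S.g y, ?_⟩)
      rw [← Geom_map_comp_apply, ← Geom_map_comp_apply, ← Category.assoc, ← S.w, Category.assoc,
        hw, Category.assoc]
    have h1 : Order.coheight v ≤ d := (coheight_le_of_etale (u.map f) v).trans hd
    have h2 := BG_lt hw2 hne (h1.trans_lt (ENat.natCast_lt_top d))
    obtain ⟨t, rfl⟩ := hgd y (((coheight_le_of_etale _ y).trans_lt h2).trans_le h1)
    exact hw1 ⟨t, Geom_map_comp_apply _ _ _⟩
  let V₂ : (u.obj V).Opens := V₁ ⊓ ⟨(closure Bad)ᶜ, isClosed_closure.isOpen_compl⟩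
  obtain ⟨S', ιX', ιY', hX', hY', hw', hXr', hAr', hYr'⟩ := hu.exists_square f U₀ V₂
    (fun w hw => hres₁ w hw.1) (fun w hw w' hw' => hinj₁ w hw.1 w' hw'.1)
  obtain ⟨φx, hφx⟩ := hu.lift_open ιX ιX' (by
    rw [hXr, hXr']
    exact Set.union_subset_union_right _ (Set.image_mono fun w hw => hw.1))
  obtain ⟨φa, hφa⟩ := hu.lift_open (S.i ≫ ιX) (S'.i ≫ ιX') (by rw [hAr, hAr'])
  obtain ⟨φy, hφy⟩ := hu.lift_open ιY ιY' (by rw [hYr, hYr']; exact fun w hw => hw.1)
  have := hu.mono_of_open ιX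
  have wi : S'.i ≫ φx = φa ≫ S.i := by
    rw [← cancel_mono ιX, Category.assoc, Category.assoc, hφx, hφa]
  have wf : S'.f ≫ φx = φy ≫ S.f := by
    rw [← cancel_mono ιX, Category.assoc, Category.assoc, hφx, hw', hw, ← Category.assoc, hφy]
  obtain ⟨φb, hj', hg'⟩ := hu.sq_lift S (S'.j ≫ φy) (S'.g ≫ φa) (by
    rw [Category.assoc, Category.assoc, ← wf, ← wi, ← Category.assoc, S'.w, Category.assoc])
  obtain ⟨χ, hχ⟩ := hu.lift_open g φb (by
    rintro _ ⟨t, rfl⟩
    have h1 : u.map (S.j ≫ ιY) (u.map φb t) = u.map ιY' (u.map S'.j t) := by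
      rw [← Geom_map_comp_apply, ← Geom_map_comp_apply, ← Category.assoc, hj', Category.assoc, hφy]
    have h2 : u.map ιY' (u.map S'.j t) ∉ closure Bad := (hYr'.le ⟨_, rfl⟩).2
    by_contra h3
    refine h2 (subset_closure ⟨?_, _, h1⟩)
    rintro ⟨w, hw⟩
    rw [Geom_map_comp_apply, ← h1] at hw
    exact h3 ⟨w, (u.map (S.j ≫ ιY)).isOpenEmbedding.injective hw⟩)
  have h4 := hb S' ⟨φx, φa, φy, φb, wi, wf, hj'.symm, hg'.symm⟩ (by
    change (H p).map φb.op b = 0
    rw [← hχ, ← Geom_map_map, hgb, map_zero])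
  refine ⟨S'.X, ιX', hX', ?_, ?_, ?_⟩
  · rw [← hφx, ← Geom_map_map]
    exact h4
  · rw [hXr']
    exact Set.subset_union_left
  · rw [hXr']
    exact Or.inr ⟨v, ⟨hv₁, hvB⟩, rfl⟩

variable (u) in
/-- The class `a` vanishes on the open `O`. -/
def BG_Dies {F : PSh C L} {U : C} (a : F.obj (op U)) (O : (u.obj U).Opens) : Prop :=
  ∃ (V : C) (f : V ⟶ U), IsOpenImmersion (u.map f) ∧ F.map f.op a = 0 ∧
    Set.range (u.map f) = (O : Set (u.obj U))

lemma BG_bot (hu : IsSite u) (hH : MVSys u H) (U : C) (q : ℤ) (a : (H q).obj (op U)) :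
    BG_Dies u a ⊥ := by
  obtain ⟨V, f, hf, hr⟩ := hu.exists_open U ⊥
  exact ⟨V, f, hf, hH.empty q V ⟨fun y => hr.le ⟨y, rfl⟩⟩ _, hr⟩

lemma BG_exists_max (hu : IsSite u) (hH : MVSys u H) (U : C) (q : ℤ) (a : (H q).obj (op U)) :
    ∃ O, BG_Dies u a O ∧ ∀ O', BG_Dies u a O' → ¬ O < O' :=
  have := hu.noeth U
  (wellFounded_gt (α := (u.obj U).Opens)).has_min {O | BG_Dies u a O} ⟨⊥, BG_bot hu hH U q a⟩

/-- A maximal open on which the class vanishes contains all points of small codimension. -/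
lemma BG_max (hu : IsSite u) (hH : MVSys u H) (d : ℕ) {U : C} (q : ℤ) (a : (H q).obj (op U))
    (ha : LocZeroEl u a) {O : (u.obj U).Opens} (hO : BG_Dies u a O)
    (hmax : ∀ O', BG_Dies u a O' → ¬ O < O')
    (IH : ∀ (B : C) (φ : B ⟶ U), Etale (u.map φ) → ∀ b : (H (q - 1)).obj (op B),
      ∃ (W : C) (g : W ⟶ B), IsOpenImmersion (u.map g) ∧ (H (q - 1)).map g.op b = 0 ∧
        ∀ y : u.obj B, Order.coheight y < d → y ∈ Set.range (u.map g))
    (x₀ : u.obj U) (hx₀ : Order.coheight x₀ ≤ d) : x₀ ∈ O := by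
  obtain ⟨V₀, f₀, hf₀, ha₀, hr₀⟩ := hO
  by_contra hx₁
  obtain ⟨x, hx, hmin⟩ := (InvImage.wf (fun x : u.obj U => Order.coheight x)
    wellFounded_lt).has_min {x | x ∉ Set.range (u.map f₀)} ⟨x₀, fun h => hx₁ (hr₀.le h)⟩
  have hd : Order.coheight x ≤ d := (not_lt.1 (hmin x₀ fun h => hx₁ (hr₀.le h))).trans hx₀
  obtain ⟨V, f, v, ⟨hf, rfl, hres⟩, hfa⟩ := ha x
  obtain ⟨X, ι, hι, hιa, h1, h2⟩ := BG_step hu hH d (q - 1) q (by ring) a f₀ ha₀ f hfa v hx
    (fun z hz hzx => by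
      by_contra hne
      exact hmin z hz (BG_lt hzx hne (hd.trans_lt (ENat.natCast_lt_top d)))) hres hd IH
  refine hmax (u.map ι).opensRange ⟨X, ι, hι, hιa, rfl⟩ ⟨fun z hz => h1 (hr₀.ge hz), fun h3 => ?_⟩
  exact hx (hr₀.ge (h3 h2))

lemma BG_aux (hu : IsSite u) (hH : MVSys u H) (d : ℕ) : ∀ (U : C) (q : ℤ) (a : (H q).obj (op U)),
    (0 < d → LocZeroEl u a) → (∀ p : ℤ, q - d < p → p < q → LocZeroOver u (H p) U) →
    ∃ (V : C) (f : V ⟶ U), IsOpenImmersion (u.map f) ∧ (H q).map f.op a = 0 ∧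
      ∀ x : u.obj U, Order.coheight x < d → x ∈ Set.range (u.map f) := by
  induction d with
  | zero =>
    intro U q a _ _
    obtain ⟨V, f, hf, ha, -⟩ := BG_bot hu hH U q a
    exact ⟨V, f, hf, ha, fun x hx => by simp at hx⟩
  | succ d ih =>
    intro U q a ha h
    obtain ⟨O, hO, hmax⟩ := BG_exists_max hu hH U q a
    have key := BG_max hu hH d q a (ha d.succ_pos) hO hmax
      (fun B φ hφ b => ih B (q - 1) b
        (fun h0 => h (q - 1) (by push_cast; omega) (by omega) B φ hφ b)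
        (fun p hp hp' => (h p (by push_cast; omega) (by omega)).of_etale φ))
    obtain ⟨V₀, f₀, hf₀, ha₀, hr₀⟩ := hO
    refine ⟨V₀, f₀, hf₀, ha₀, fun x₀ hx₀ => hr₀.ge (key x₀ ?_)⟩
    rw [Nat.cast_succ] at hx₀
    exact Order.le_of_lt_add_one hx₀

/-- The inductive form of the Brown-Gersten theorem: a locally zero class vanishes on an open
containing all points of codimension less than `d`. -/
theorem bg_core (hu : IsSite u) (hH : MVSys u H) (d : ℕ) (U : C) (q : ℤ) (a : (H q).obj (op U))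
    (ha : LocZeroEl u a) (h : ∀ p : ℤ, q - d < p → p < q → LocZeroOver u (H p) U) :
    ∃ (V : C) (f : V ⟶ U), IsOpenImmersion (u.map f) ∧ (H q).map f.op a = 0 ∧
      ∀ x : u.obj U, Order.coheight x < d → x ∈ Set.range (u.map f) :=
  BG_aux hu hH d U q a (fun _ => ha) h

lemma BG_zero (hu : IsSite u) {F : PSh C L} {U V : C} (f : V ⟶ U) [IsOpenImmersion (u.map f)]
    (a : F.obj (op U)) (ha : F.map f.op a = 0) (h : ∀ x, x ∈ Set.range (u.map f)) : a = 0 := by
  obtain ⟨ψ, hψ⟩ := hu.lift_open f (𝟙 U) fun x _ => h x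
  have h1 : F.map (ψ ≫ f).op a = 0 := by rw [← Geom_map_map, ha, map_zero]
  rw [hψ, op_id, F.map_id] at h1
  exact h1

lemma BG_coheight_lt_top {X : Scheme.{0}} [IsLocallyNoetherian X] (x : X) :
    Order.coheight x < ⊤ := by
  have h := ringKrullDim_lt_top (R := X.presheaf.stalk x)
  rw [ringKrullDim_stalk_eq_coheight] at h
  exact WithBot.coe_lt_coe.1 h

attribute [local instance] specializationOrder in
lemma BG_coheight_le {X : Scheme.{0}} (x : X) :
    (Order.coheight x : WithBot ℕ∞) ≤ topologicalKrullDim X := by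
  have h := Order.coheight_le_krullDim ((irreducibleSetEquivPoints (α := X)).symm x)
  rwa [Order.coheight_orderIso] at h

/-- A locally zero class vanishes if all groups of lower degree are locally zero. -/
theorem bg_minus_el (hu : IsSite u) (hH : MVSys u H) (U : C) (q : ℤ) (a : (H q).obj (op U))
    (ha : LocZeroEl u a) (h : ∀ p : ℤ, p < q → LocZeroOver u (H p) U) : a = 0 := by
  have := hu.noeth U
  obtain ⟨O, hO, hmax⟩ := BG_exists_max hu hH U q a
  have key : ∀ x, x ∈ O := fun x => by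
    obtain ⟨d, hd⟩ := ENat.ne_top_iff_exists.1 (BG_coheight_lt_top x).ne
    exact BG_max hu hH d q a ha hO hmax (fun B φ hφ b => bg_core hu hH d B (q - 1) b
      (h (q - 1) (by omega) B φ hφ b) fun p _ hp => (h p (by omega)).of_etale φ) x hd.ge
  obtain ⟨V, f, hf, ha₀, hr⟩ := hO
  exact BG_zero hu f a ha₀ fun x => hr.ge (key x)

theorem bg_minus (hu : IsSite u) (hH : MVSys u H) (U : C) (b : ℤ)
    (h : ∀ p : ℤ, p ≤ b → LocZeroOver u (H p) U) (q : ℤ) (hq : q ≤ b) (a : (H q).obj (op U)) :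
    a = 0 :=
  bg_minus_el hu hH U q a (h q hq U (𝟙 U) (by rw [u.map_id]; infer_instance) a)
    fun p hp => h p (by omega)

/-- A locally zero class of degree `q` on a scheme of dimension at most `d` vanishes if the groups
of degree `q - d, ..., q - 1` are locally zero. -/
theorem bg_plus_el (hu : IsSite u) (hH : MVSys u H) (U : C) (d : ℕ)
    (hd : topologicalKrullDim (u.obj U) ≤ d) (q : ℤ) (a : (H q).obj (op U)) (ha : LocZeroEl u a)
    (h : ∀ p : ℤ, q - d ≤ p → p < q → LocZeroOver u (H p) U) : a = 0 := by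
  obtain ⟨V, f, hf, ha₀, hr⟩ := bg_core hu hH (d + 1) U q a ha
    fun p hp hp' => h p (by push_cast at hp; omega) hp'
  refine BG_zero hu f a ha₀ fun x => hr x ?_
  have h1 : Order.coheight x ≤ d := WithBot.coe_le_coe.1 ((BG_coheight_le x).trans hd)
  exact h1.trans_lt (by exact_mod_cast d.lt_succ_self)

theorem bg_plus (hu : IsSite u) (hH : MVSys u H) (U : C) (d : ℕ)
    (hd : topologicalKrullDim (u.obj U) ≤ d) (b : ℤ)
    (h : ∀ p : ℤ, b < p → LocZeroOver u (H p) U) (q : ℤ) (hq : b + d < q)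
    (a : (H q).obj (op U)) : a = 0 :=
  bg_plus_el hu hH U d hd q a (h q (by omega) U (𝟙 U) (by rw [u.map_id]; infer_instance) a)
    fun p hp _ => h p (by omega)

end Pool.Agent.KEW
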